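import Mathlib

/-!
# Packed natural numbers
-/

set_option autoImplicit false

namespace Pool.Agent.H74.EGZ

/-- `∑_{i<n} x i * 2^(w i)` -/
def pk (w : ℕ) (x : ℕ → ℕ) : ℕ → ℕ
  | 0 => 0
  | n + 1 => pk w x n + x n * 2 ^ (w * n)

lemma pk_eq_sum (w : ℕ) (x : ℕ → ℕ) (n : ℕ) :
    pk w x n = ∑ i ∈ Finset.range n, x i * 2 ^ (w * i) := by
  induction n with
  | zero => rfl
  | succ n ih => rw [Finset.sum_range_succ, pk, ih]

lemma pk_congr {w : ℕ} {x y : ℕ → ℕ} {n : ℕ} (h : ∀ i < n, x i = y i) : pk w x n = pk w y n := by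
  induction n with
  | zero => rfl
  | succ n ih =>
    rw [pk, pk, ih fun i hi => h i (by omega), h n (by omega)]

lemma pk_lt {w : ℕ} {x : ℕ → ℕ} {n : ℕ} (h : ∀ i < n, x i < 2 ^ w) : pk w x n < 2 ^ (w * n) := by
  induction n with
  | zero => simp [pk]
  | succ n ih =>
    have h1 := ih fun i hi => h i (by omega)
    have h2 := h n (by omega)
    rw [pk]
    have h3 : (x n + 1) * 2 ^ (w * n) ≤ 2 ^ w * 2 ^ (w * n) := Nat.mul_le_mul_right _ h2
    have h4 : 2 ^ (w * (n + 1)) = 2 ^ w * 2 ^ (w * n) := by rw [mul_add, mul_one, pow_add, mul_comm]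
    rw [h4]
    calc pk w x n + x n * 2 ^ (w * n) < 2 ^ (w * n) + x n * 2 ^ (w * n) := by omega
      _ = (x n + 1) * 2 ^ (w * n) := by ring
      _ ≤ _ := h3

/-- the field `k` of a packed number -/
lemma pk_div_mod {w : ℕ} {x : ℕ → ℕ} {n : ℕ} (h : ∀ i < n, x i < 2 ^ w) {k : ℕ} (hk : k < n) :
    pk w x n / 2 ^ (w * k) % 2 ^ w = x k := by
  induction n with
  | zero => omega
  | succ n ih =>
    have h1 : pk w x n < 2 ^ (w * n) := pk_lt fun i hi => h i (by omega)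
    rw [pk]
    rcases Nat.lt_succ_iff_lt_or_eq.mp hk with h2 | h2
    · have h3 : x n * 2 ^ (w * n) = 2 ^ (w * k) * (2 ^ w * (x n * 2 ^ (w * (n - k - 1)))) := by
        have : w * n = w * k + w + w * (n - k - 1) := by
          obtain ⟨m, rfl⟩ : ∃ m, n = k + 1 + m := ⟨n - k - 1, by omega⟩
          have : k + 1 + m - k - 1 = m := by omega
          rw [this]; ring
        rw [this, pow_add, pow_add]; ring
      rw [h3, Nat.add_mul_div_left _ _ (by positivity), Nat.add_mul_mod_self_left]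
      exact ih (fun i hi => h i (by omega)) h2
    · subst h2
      rw [mul_comm (x k) _, Nat.add_mul_div_left _ _ (by positivity), Nat.div_eq_of_lt h1, zero_add]
      exact Nat.mod_eq_of_lt (h k (by omega))

lemma pk_testBit {w : ℕ} {x : ℕ → ℕ} {n : ℕ} (h : ∀ i < n, x i < 2 ^ w) {k r : ℕ} (hk : k < n)
    (hr : r < w) : (pk w x n).testBit (w * k + r) = (x k).testBit r := by
  have h1 := pk_div_mod h hk
  rw [← h1, Nat.testBit_mod_two_pow, Nat.testBit_div_two_pow, add_comm r]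
  simp [hr]

lemma pk_testBit_ge {w : ℕ} {x : ℕ → ℕ} {n : ℕ} (h : ∀ i < n, x i < 2 ^ w) {j : ℕ}
    (hj : w * n ≤ j) : (pk w x n).testBit j = false :=
  Nat.testBit_eq_false_of_lt (lt_of_lt_of_le (pk_lt h) (Nat.pow_le_pow_right (by norm_num) hj))

/-- the product with a sparse repunit -/
lemma mul_rep_testBit {w B : ℕ} (hB : B < 2 ^ w) {n k r : ℕ} (hk : k < n) (hr : r < w) :
    (B * pk w (fun _ => 1) n).testBit (w * k + r) = B.testBit r := by
  have h1 : B * pk w (fun _ => 1) n = pk w (fun _ => B) n := by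
    rw [pk_eq_sum, pk_eq_sum, Finset.mul_sum]
    exact Finset.sum_congr rfl fun i _ => by ring
  rw [h1]
  exact pk_testBit (fun _ _ => hB) hk hr

/-- digits base 4 -/
def dgt (B i : ℕ) : ℕ := B / 4 ^ i % 4

lemma dgt_lt (B i : ℕ) : dgt B i < 4 := Nat.mod_lt _ (by norm_num)

lemma dgt_testBit (B i r : ℕ) (hr : r < 2) : (dgt B i).testBit r = B.testBit (2 * i + r) := by
  have h4 : (4 : ℕ) ^ i = 2 ^ (2 * i) := by rw [pow_mul]; norm_num
  have h5 : (4 : ℕ) = 2 ^ 2 := by norm_num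
  rw [dgt, h4, h5, Nat.testBit_mod_two_pow, Nat.testBit_div_two_pow, add_comm r]
  simp [hr]

/-- spreading: from stride 2 to stride 64 -/
lemma spread_eq {B : ℕ} (hB : B < 2 ^ 36) :
    (B * pk 62 (fun _ => 1) 18) &&& pk 64 (fun _ => 3) 18 = pk 64 (dgt B) 18 := by
  have hb : ∀ i < 18, dgt B i < 2 ^ 64 := fun i _ => lt_trans (dgt_lt B i) (by norm_num)
  have h3 : ∀ i < 18, (fun _ => 3 : ℕ → ℕ) i < 2 ^ 64 := fun i _ => by norm_num
  refine Nat.eq_of_testBit_eq fun j => ?_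
  rw [Nat.testBit_and]
  rcases Nat.lt_or_ge j (64 * 18) with hj | hj
  · obtain ⟨k, r, hr, rfl⟩ : ∃ k r, r < 64 ∧ j = 64 * k + r :=
      ⟨j / 64, j % 64, Nat.mod_lt _ (by norm_num), (Nat.div_add_mod j 64).symm⟩
    have hk : k < 18 := by omega
    rw [pk_testBit h3 hk hr, pk_testBit hb hk hr]
    rcases Nat.lt_or_ge r 2 with h2 | h2
    · have e1 : 64 * k + r = 62 * k + (2 * k + r) := by ring
      have hB' : B < 2 ^ 62 := lt_trans hB (by norm_num)
      rw [e1, mul_rep_testBit hB' hk (by omega), dgt_testBit B k r h2]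
      have : (3 : ℕ).testBit r = true := by
        interval_cases r <;> decide
      rw [this, Bool.and_true]
    · have e1 : (3 : ℕ).testBit r = false :=
        Nat.testBit_eq_false_of_lt (lt_of_lt_of_le (by norm_num : 3 < 2 ^ 2)
          (Nat.pow_le_pow_right (by norm_num) h2))
      have e2 : (dgt B k).testBit r = false :=
        Nat.testBit_eq_false_of_lt (lt_of_lt_of_le (dgt_lt B k)
          (le_trans (by norm_num : 4 ≤ 2 ^ 2) (Nat.pow_le_pow_right (by norm_num) h2)))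
      rw [e1, e2, Bool.and_false]
  · rw [pk_testBit_ge h3 hj, pk_testBit_ge hb hj, Bool.and_false]

/-- the reversed packing `∑_{i<n} x i R^(n-1-i)` -/
def pr (w : ℕ) (x : ℕ → ℕ) : ℕ → ℕ
  | 0 => 0
  | n + 1 => pr w x n * 2 ^ w + x n

lemma pr_eq_sum (w : ℕ) (x : ℕ → ℕ) (n : ℕ) :
    pr w x n = ∑ i ∈ Finset.range n, x i * 2 ^ (w * (n - 1 - i)) := by
  induction n with
  | zero => rfl
  | succ n ih =>
    rw [Finset.sum_range_succ, pr, ih, Finset.sum_mul]
    congr 1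
    · refine Finset.sum_congr rfl fun i hi => ?_
      have hi' := Finset.mem_range.mp hi
      have : n + 1 - 1 - i = (n - 1 - i) + 1 := by omega
      rw [this, mul_add, mul_one, pow_add]; ring
    · simp

lemma pk_bound {w : ℕ} {b : ℕ → ℕ} (hw : 2 ≤ w) (n : ℕ) (hb : ∀ i < n, b i < 4) :
    pk w b n * 2 ^ w ≤ 4 * 2 ^ (w * n) := by
  induction n with
  | zero => simp [pk]
  | succ n ih =>
    have h1 := ih fun i hi => hb i (by omega)
    have h2 : b n ≤ 3 := by have := hb n (by omega); omega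
    have h3 : (4 : ℕ) ≤ 2 ^ w := le_trans (by norm_num : 4 ≤ 2 ^ 2) (Nat.pow_le_pow_right (by norm_num) hw)
    have h4 : 2 ^ (w * (n + 1)) = 2 ^ w * 2 ^ (w * n) := by rw [mul_add, mul_one, pow_add, mul_comm]
    rw [pk, h4]
    have h5 : b n * (2 ^ (w * n) * 2 ^ w) ≤ 3 * (2 ^ (w * n) * 2 ^ w) := Nat.mul_le_mul_right _ h2
    have h6 : 4 * 2 ^ (w * n) ≤ 2 ^ w * 2 ^ (w * n) := Nat.mul_le_mul_right _ h3
    calc (pk w b n + b n * 2 ^ (w * n)) * 2 ^ w
        = pk w b n * 2 ^ w + b n * (2 ^ (w * n) * 2 ^ w) := by ring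
      _ ≤ 2 ^ w * 2 ^ (w * n) + 3 * (2 ^ (w * n) * 2 ^ w) := by
        exact Nat.add_le_add (le_trans h1 h6) h5
      _ = 4 * (2 ^ w * 2 ^ (w * n)) := by ring

/-- the product of a packed and a reversed packed number -/
lemma dot_aux {w c : ℕ} {b x : ℕ → ℕ} (hw : 2 ≤ w) (n : ℕ) (hb : ∀ i < n, b i < 4)
    (hx : ∀ i < n, x i < 2 ^ c) :
    ∃ U L, pk w b n * pr w x n * 2 ^ w =
      2 ^ (w * n) * 2 ^ w * U + 2 ^ (w * n) * (∑ i ∈ Finset.range n, b i * x i) + L ∧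
      L * 2 ^ w ≤ n * 2 ^ (c + 2) * 2 ^ (w * n) := by
  induction n with
  | zero => exact ⟨0, 0, by simp [pk], by simp⟩
  | succ n ih =>
    obtain ⟨U, L, h1, h2⟩ := ih (fun i hi => hb i (by omega)) (fun i hi => hx i (by omega))
    have h3 := pk_bound (b := b) hw n fun i hi => hb i (by omega)
    have h4 : 2 ^ (w * (n + 1)) = 2 ^ w * 2 ^ (w * n) := by rw [mul_add, mul_one, pow_add, mul_comm]
    refine ⟨U + b n * pr w x n, 2 ^ w * L + pk w b n * 2 ^ w * x n, ?_, ?_⟩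
    · rw [Finset.sum_range_succ, pk, pr, h4]
      calc (pk w b n + b n * 2 ^ (w * n)) * (pr w x n * 2 ^ w + x n) * 2 ^ w
          = 2 ^ w * (pk w b n * pr w x n * 2 ^ w) + pk w b n * 2 ^ w * x n
            + (b n * 2 ^ (w * n)) * (pr w x n * 2 ^ w + x n) * 2 ^ w := by ring
        _ = _ := by rw [h1]; ring
    · have h5 : x n ≤ 2 ^ c := (hx n (by omega)).le
      have h6 : pk w b n * 2 ^ w * x n ≤ 4 * 2 ^ (w * n) * 2 ^ c := Nat.mul_le_mul h3 h5
      have h7 : (2 : ℕ) ^ (c + 2) = 2 ^ c * 4 := by rw [pow_add]; norm_num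
      calc (2 ^ w * L + pk w b n * 2 ^ w * x n) * 2 ^ w
          = 2 ^ w * (L * 2 ^ w) + 2 ^ w * (pk w b n * 2 ^ w * x n) := by ring
        _ ≤ 2 ^ w * (n * 2 ^ (c + 2) * 2 ^ (w * n)) + 2 ^ w * (4 * 2 ^ (w * n) * 2 ^ c) :=
          Nat.add_le_add (Nat.mul_le_mul_left _ h2) (Nat.mul_le_mul_left _ h6)
        _ = (n + 1) * 2 ^ (c + 2) * 2 ^ (w * (n + 1)) := by rw [h4, h7]; ring

/-- the dot product as a field of the product -/
lemma dot_eq {w c n : ℕ} {b x : ℕ → ℕ} (hw : 2 ≤ w) (hb : ∀ i < n + 1, b i < 4)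
    (hx : ∀ i < n + 1, x i < 2 ^ c) (hn : (n + 1) * 2 ^ (c + 2) < 2 ^ w) :
    pk w b (n + 1) * pr w x (n + 1) / 2 ^ (w * n) % 2 ^ w
      = ∑ i ∈ Finset.range (n + 1), b i * x i := by
  obtain ⟨U, L, h1, h2⟩ := dot_aux hw (n + 1) hb hx
  set s := ∑ i ∈ Finset.range (n + 1), b i * x i with hs
  have h4 : 2 ^ (w * (n + 1)) = 2 ^ (w * n) * 2 ^ w := by rw [mul_add, mul_one, pow_add]
  have hL : L < 2 ^ (w * (n + 1)) := by
    have h5 : (n + 1) * 2 ^ (c + 2) * 2 ^ (w * (n + 1)) < 2 ^ w * 2 ^ (w * (n + 1)) :=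
      Nat.mul_lt_mul_of_pos_right hn (by positivity)
    have h6 : L * 2 ^ w < 2 ^ (w * (n + 1)) * 2 ^ w := by
      rw [mul_comm (2 ^ (w * (n + 1)))]; exact lt_of_le_of_lt h2 h5
    exact Nat.lt_of_mul_lt_mul_right h6
  have hss : s < 2 ^ w := by
    have h5 : s ≤ ∑ _i ∈ Finset.range (n + 1), 4 * 2 ^ c := by
      refine Finset.sum_le_sum fun i hi => ?_
      have hi' := Finset.mem_range.mp hi
      exact Nat.mul_le_mul (hb i hi').le (hx i hi').le
    rw [Finset.sum_const, Finset.card_range, smul_eq_mul] at h5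
    have h7 : (2 : ℕ) ^ (c + 2) = 4 * 2 ^ c := by rw [pow_add]; ring
    rw [h7] at hn
    exact lt_of_le_of_lt h5 hn
  have e1 : pk w b (n + 1) * pr w x (n + 1) / 2 ^ (w * n) =
      (pk w b (n + 1) * pr w x (n + 1) * 2 ^ w) / (2 ^ (w * n) * 2 ^ w) :=
    (Nat.mul_div_mul_right _ _ (by positivity)).symm
  have e2 : 2 ^ (w * (n + 1)) * 2 ^ w * U + 2 ^ (w * (n + 1)) * s + L =
      L + 2 ^ (w * (n + 1)) * (2 ^ w * U + s) := by ring
  rw [e1, ← h4, h1, e2, Nat.add_mul_div_left _ _ (by positivity), Nat.div_eq_of_lt hL, zero_add,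
    Nat.mul_add_mod, Nat.mod_eq_of_lt hss]

/-- the sum of the fields -/
lemma sum_fields {w n : ℕ} {b : ℕ → ℕ} (hs : ∑ i ∈ Finset.range n, b i < 2 ^ w - 1) :
    pk w b n % (2 ^ w - 1) = ∑ i ∈ Finset.range n, b i := by
  have h1 : ∀ m : ℕ, 2 ^ (w * m) ≡ 1 [MOD (2 ^ w - 1)] := by
    intro m
    have h2 : 2 ^ w ≡ 1 [MOD (2 ^ w - 1)] := by
      have h3 : 1 ≤ 2 ^ w := Nat.one_le_two_pow
      exact ((Nat.modEq_iff_dvd' h3).mpr dvd_rfl).symm
    have h4 := h2.pow m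
    rwa [one_pow, ← pow_mul] at h4
  have h2 : pk w b n ≡ ∑ i ∈ Finset.range n, b i [MOD (2 ^ w - 1)] := by
    rw [pk_eq_sum]
    clear hs
    induction n with
    | zero => exact Nat.ModEq.refl _
    | succ n ih =>
      rw [Finset.sum_range_succ, Finset.sum_range_succ]
      refine ih.add ?_
      simpa using (h1 n).mul_left (b n)
  rw [h2, Nat.mod_eq_of_lt hs]

end Pool.Agent.H74.EGZ
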