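import Mathlib
import Pool.Agent.H29.EGZ.Trans
import Pool.Agent.H74.EGZ.Pack

/-!
# The facts about the digits of a good lift used by the search
-/

set_option autoImplicit false

namespace Pool.Agent.H74.EGZ

open Finset Pool.Agent.H29.EGZ

/-- vectors -/
abbrev V := Fin 5 → ZMod 3

/-- base-3 code of a vector -/
def i3 (v : V) : ℕ :=
  (v 0).val + 3 * (v 1).val + 9 * (v 2).val + 27 * (v 3).val + 81 * (v 4).val

/-- the integer value `∑ b_i (pt_i + 3 F_i)` at coordinate `k` -/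
def sm (pt F : ℕ → V) (b : ℕ → ℕ) (k : Fin 5) : ℕ :=
  ∑ i ∈ range 18, b i * ((pt i k).val + 3 * (F i k).val)

/-- all facts: `pt` = the 18 points of the slots, `F` = the digits of the lift; `sb` = list of
relations (code, forbidden values) -/
structure Facts (pt F : ℕ → V) (a7 : V) (sb : List (ℕ × ℕ)) : Prop where
  base : ∀ i < 5, F i = 0
  seven : F 5 = a7
  six : ∀ b : ℕ → ℕ, (∀ i, b i ≤ 3) → ∑ i ∈ range 18, b i = 6 → ∀ Q : Fin 5 → ℕ,
    (∀ k, sm pt F b k = 3 * Q k) → (fun k => -(Q k : ZMod 3)) ∉ cap45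
  nine : ∀ b : ℕ → ℕ, (∀ i, b i ≤ 3) → ∑ i ∈ range 18, b i = 9 → ∀ Q : Fin 5 → ℕ,
    (∀ k, sm pt F b k = 3 * Q k) → (fun k => (Q k : ZMod 3)) ≠ 0
  sbq : ∀ p ∈ sb, ∀ Q : Fin 5 → ℕ, (∀ k, sm pt F (dgt p.1) k = 3 * Q k) →
    p.2.testBit (i3 fun k => -(Q k : ZMod 3)) = false

/-- the multiplicity function of a coefficient vector -/
def bf (pt : ℕ → V) (b : ℕ → ℕ) (u : V) : ℕ := ∑ i ∈ range 18, if pt i = u then b i else 0

lemma sum_bf {pt : ℕ → V} {D : Finset V} (hD : ∀ i < 18, pt i ∈ D) (b : ℕ → ℕ) {M : Type*}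
    [AddCommMonoid M] (G : V → M) : ∑ u ∈ D, bf pt b u • G u = ∑ i ∈ range 18, b i • G (pt i) := by
  unfold bf
  simp only [Finset.sum_smul]
  rw [Finset.sum_comm]
  refine Finset.sum_congr rfl fun i hi => ?_
  rw [Finset.sum_eq_single (pt i)]
  · simp
  · intro u _ hu
    rw [if_neg (Ne.symm hu), zero_smul]
  · intro h
    exact absurd (hD i (mem_range.mp hi)) h

lemma sum_bf' {pt : ℕ → V} {D : Finset V} (hD : ∀ i < 18, pt i ∈ D) (b : ℕ → ℕ) :
    ∑ u ∈ D, bf pt b u = ∑ i ∈ range 18, b i := by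
  have h := sum_bf hD b (fun _ => (1 : ℕ))
  simpa using h

lemma bf_le {pt : ℕ → V} (hinj : ∀ i < 18, ∀ j < 18, pt i = pt j → i = j) {b : ℕ → ℕ} {c : ℕ}
    (hb : ∀ i, b i ≤ c) (u : V) : bf pt b u ≤ c := by
  unfold bf
  by_cases h : ∃ i < 18, pt i = u
  · obtain ⟨i, hi, hu⟩ := h
    rw [Finset.sum_eq_single i]
    · rw [if_pos hu]; exact hb i
    · intro j hj hji
      rw [if_neg]
      intro hju
      exact hji (hinj j (mem_range.mp hj) i hi (hju.trans hu.symm))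
    · intro h; exact absurd (mem_range.mpr hi) h
  · rw [Finset.sum_eq_zero]
    · exact Nat.zero_le _
    · intro i hi
      rw [if_neg]
      intro hu
      exact h ⟨i, mem_range.mp hi, hu⟩

/-- the sum of the lifted points in terms of the integer values -/
lemma sum_x {x : V → (Fin 5 → ZMod 9)} {pt F : ℕ → V}
    (hred : ∀ i < 18, red 5 (x (pt i)) = pt i) (hF : ∀ i < 18, dg x (pt i) = F i) (b : ℕ → ℕ)
    (k : Fin 5) : (∑ i ∈ range 18, b i • x (pt i)) k = ((sm pt F b k : ℕ) : ZMod 9) := by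
  rw [Finset.sum_apply, sm, Nat.cast_sum]
  refine Finset.sum_congr rfl fun i hi => ?_
  have hi' := mem_range.mp hi
  rw [Pi.smul_apply, dg_spec (hred i hi'), hF i hi', Pi.add_apply, digit, mul3]
  push_cast
  rw [nsmul_eq_mul]

lemma third_of {v : Fin 5 → ZMod 9} {Q : Fin 5 → ℕ} (h : ∀ k, v k = ((3 * Q k : ℕ) : ZMod 9)) :
    red 5 v = 0 ∧ third 5 v = fun k => (Q k : ZMod 3) := by
  have hQ : ∀ q : ℕ, ((3 * q : ℕ) : ZMod 9) = ((3 * (q % 3) : ℕ) : ZMod 9) := by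
    intro q
    rw [ZMod.natCast_eq_natCast_iff]
    have : 3 * q = 3 * (q % 3) + 9 * (q / 3) := by have := Nat.mod_add_div q 3; omega
    rw [this, Nat.ModEq, Nat.add_mul_mod_self_left]
  have hq : ∀ q : ℕ, q % 3 = 0 ∨ q % 3 = 1 ∨ q % 3 = 2 := by intro q; omega
  constructor
  · funext k
    rw [red_apply, h k, hQ, Pi.zero_apply]
    rcases hq (Q k) with h1 | h1 | h1 <;> rw [h1] <;> decide
  · funext k
    show (((v k).val / 3 : ℕ) : ZMod 3) = _
    have h2 : ((Q k : ℕ) : ZMod 3) = ((Q k % 3 : ℕ) : ZMod 3) := by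
      rw [ZMod.natCast_mod]
    rw [h k, hQ, h2]
    rcases hq (Q k) with h1 | h1 | h1 <;> rw [h1] <;> decide

/-- the facts hold for a good lift -/
theorem facts_of_goodLift {x : V → (Fin 5 → ZMod 9)} (hx : GoodLift cap45 x) {pt F : ℕ → V}
    (hmem : ∀ i < 18, pt i ∈ cap45) (hinj : ∀ i < 18, ∀ j < 18, pt i = pt j → i = j)
    (hF : ∀ i < 18, dg x (pt i) = F i) (hbase : ∀ i < 5, F i = 0) {a7 : V} (h7 : F 5 = a7)
    {sb : List (ℕ × ℕ)}
    (hsb : ∀ p ∈ sb, ∀ Q : Fin 5 → ℕ, (∀ k, sm pt F (dgt p.1) k = 3 * Q k) →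
      p.2.testBit (i3 fun k => -(Q k : ZMod 3)) = false) : Facts pt F a7 sb where
  base := hbase
  seven := h7
  six := by
    intro b hb h6 Q hQ
    have hs := sum_bf hmem b x
    have hk : ∀ k, (∑ u ∈ cap45, bf pt b u • x u) k = ((3 * Q k : ℕ) : ZMod 9) := by
      intro k
      rw [hs, sum_x (fun i hi => hx.lift _ (hmem i hi)) hF, hQ k]
    obtain ⟨h1, h2⟩ := third_of hk
    have hrel : Rel cap45 (bf pt b) := by
      refine ⟨fun u _ => (bf_le hinj hb u).trans (by norm_num), ?_, ?_⟩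
      · rw [sum_bf' hmem, h6]
      · rw [← GoodLift.red_sum hx.lift, h1]
    have h3 := hx.ev_notMem hrel
    rw [ev, h2] at h3
    exact h3
  nine := by
    intro b hb h9 Q hQ h0
    have hs := sum_bf hmem b x
    have hk : ∀ k, (∑ u ∈ cap45, bf pt b u • x u) k = ((3 * Q k : ℕ) : ZMod 9) := by
      intro k
      rw [hs, sum_x (fun i hi => hx.lift _ (hmem i hi)) hF, hQ k]
    obtain ⟨h1, h2⟩ := third_of hk
    refine hx.good (bf pt b) (fun u _ => (bf_le hinj hb u).trans (by norm_num)) ?_ ?_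
    · rw [sum_bf' hmem, h9]
    · refine (div3 5).inj _ h1 ?_
      rw [h2, h0]
  sbq := hsb

/-- the value `ev` of a relation given by its code -/
lemma ev_bf {x : V → (Fin 5 → ZMod 9)} (hx : GoodLift cap45 x) {pt F : ℕ → V}
    (hmem : ∀ i < 18, pt i ∈ cap45) (hF : ∀ i < 18, dg x (pt i) = F i) {b : ℕ → ℕ}
    {Q : Fin 5 → ℕ} (hQ : ∀ k, sm pt F b k = 3 * Q k) :
    ev cap45 x (bf pt b) = fun k => -(Q k : ZMod 3) := by
  have hs := sum_bf hmem b x
  have hk : ∀ k, (∑ u ∈ cap45, bf pt b u • x u) k = ((3 * Q k : ℕ) : ZMod 9) := by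
    intro k
    rw [hs, sum_x (fun i hi => hx.lift _ (hmem i hi)) hF, hQ k]
  rw [ev, (third_of hk).2]
  rfl

end Pool.Agent.H74.EGZ
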