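import Mathlib
import Pool.Agent.H74.EGZ.Rel

/-!
# The root check: the leaf masks contain the intersection of the relation masks
-/

set_option autoImplicit false

namespace Pool.Agent.H74.EGZ

open Finset Pool.Agent.H29.EGZ

/-- all 243 bits -/
def FUL : ℕ := 14134776518227074636666380005943348126619871175004951664972849610340958207

lemma FUL_testBit (v : V) : FUL.testBit (i3 v) = true := by
  have h : FUL = 2 ^ 243 - 1 := by decide +kernel
  rw [h, Nat.testBit_two_pow_sub_one]
  simp [i3_lt v]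

/-- the value of the free slots -/
def sF (F : ℕ → V) (P : ℕ) : V := ∑ i ∈ range 12, dgt P i • F (6 + i)

/-- known digits -/
def kn (a7 : V) (i : ℕ) : V := if i = 5 then a7 else 0

lemma sm_split {pt F : ℕ → V} {a7 : V} (hb : ∀ i < 5, F i = 0) (h7 : F 5 = a7) (b : ℕ → ℕ)
    (k : Fin 5) : sm pt F b k =
      sm pt (kn a7) b k + 3 * ∑ i ∈ range 12, b (6 + i) * (F (6 + i) k).val := by
  unfold sm
  have e : (18 : ℕ) = 6 + 12 := by norm_num
  rw [e, Finset.sum_range_add, Finset.sum_range_add]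
  have h1 : ∑ i ∈ range 6, b i * ((pt i k).val + 3 * (F i k).val) =
      ∑ i ∈ range 6, b i * ((pt i k).val + 3 * (kn a7 i k).val) := by
    refine Finset.sum_congr rfl fun i hi => ?_
    have hi' := mem_range.mp hi
    have : F i = kn a7 i := by
      unfold kn
      by_cases h5 : i = 5
      · rw [if_pos h5, h5, h7]
      · rw [if_neg h5, hb i (by omega)]
    rw [this]
  have h2 : ∑ i ∈ range 12, b (6 + i) * ((pt (6 + i) k).val + 3 * (F (6 + i) k).val) =
      ∑ i ∈ range 12, b (6 + i) * ((pt (6 + i) k).val + 3 * (kn a7 (6 + i) k).val)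
        + 3 * ∑ i ∈ range 12, b (6 + i) * (F (6 + i) k).val := by
    rw [Finset.mul_sum, ← Finset.sum_add_distrib]
    refine Finset.sum_congr rfl fun i _ => ?_
    have : kn a7 (6 + i) k = 0 := by
      unfold kn
      rw [if_neg (by omega)]
      rfl
    rw [this, ZMod.val_zero]
    ring
  rw [h1, h2]
  ring

lemma dgt_shift (B i : ℕ) : dgt (Nat.shiftRight B 12) i = dgt B (6 + i) := by
  have h : Nat.shiftRight B 12 = B / 2 ^ 12 := Nat.shiftRight_eq_div_pow B 12
  unfold dgt
  rw [h, Nat.div_div_eq_div_mul, pow_add]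
  norm_num

lemma k5_val (k : Fin 5) : k5 k.val = k := by
  apply Fin.ext
  show k.val % 5 = k.val
  exact Nat.mod_eq_of_lt k.isLt

/-- the packed vector and its quotient by three -/
lemma quot_spec {pt A : ℕ → V} {B : ℕ} (hB : B < 2 ^ 36)
    (h : dv3 (dotv (pr 64 (xv pt A) 18) B) = true) :
    ∃ Qn : ℕ → ℕ, (∀ k < 5, 3 * Qn k < 2 ^ 12) ∧
      dotv (pr 64 (xv pt A) 18) B = pk 12 (fun k => 3 * Qn k) 5 ∧
      ∀ k : Fin 5, sm pt A (dgt B) k = 3 * Qn k.val := by
  rw [dotv_eq hB] at h ⊢
  have hs : ∀ k < 5, (fun k => sm pt A (dgt B) (k5 k)) k < 2 ^ 12 := fun k _ => sm_lt pt A B (k5 k)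
  have h3 := dv3_spec hs h
  have e : ∀ k < 5, sm pt A (dgt B) (k5 k) = 3 * (sm pt A (dgt B) (k5 k) / 3) := by
    intro k hk
    have h4 : sm pt A (dgt B) (k5 k) % 3 = 0 := h3 k hk
    exact (Nat.mul_div_cancel' (Nat.dvd_of_mod_eq_zero h4)).symm
  refine ⟨fun k => sm pt A (dgt B) (k5 k) / 3, ?_, ?_, ?_⟩
  · intro k hk
    show 3 * (sm pt A (dgt B) (k5 k) / 3) < _
    rw [← e k hk]
    exact hs k hk
  · exact pk_congr fun k hk => e k hk
  · intro k
    have h5 : sm pt A (dgt B) (k5 k.val) = 3 * (sm pt A (dgt B) (k5 k.val) / 3) := e k.val k.isLt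
    have h6 : sm pt A (dgt B) k = sm pt A (dgt B) (k5 k.val) := by rw [k5_val]
    exact h6.trans h5

/-- the mask of a relation for the pattern `Pp` (with opposite pattern `Pm`) -/
def relm (X Pp Pm q B : ℕ) : ℕ :=
  ifn (Nat.ble B 68719476735) (frn (dotv X B) fun S => ifn (dv3 S) (frn (cntv B) fun c =>
    ifn (Nat.beq (Nat.shiftRight B 12) Pp)
      (ifn (Nat.beq c 6) (ext T6p (ixp S q)) (ifn (Nat.beq c 9) (ext T9 (ixp S q)) FUL))
      (ifn (Nat.beq (Nat.shiftRight B 12) Pm)
        (ifn (Nat.beq c 6) (ext T6m (ixm S q)) (ifn (Nat.beq c 9) (ext T9 (ixm S q)) FUL)) FUL))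
    FUL) FUL

section

variable {pt F : ℕ → V} {a7 : V} {sb : List (ℕ × ℕ)}

/-- the quotient for the true digits -/
lemma Facts.quot (h : Facts pt F a7 sb) {B : ℕ} {Qn : ℕ → ℕ}
    (hQ : ∀ k : Fin 5, sm pt (kn a7) (dgt B) k = 3 * Qn k.val) :
    ∃ Q : Fin 5 → ℕ, (∀ k, sm pt F (dgt B) k = 3 * Q k) ∧
      (fun k => (Q k : ZMod 3)) = (fun k : Fin 5 => (Qn k.val : ZMod 3)) +
        sF F (Nat.shiftRight B 12) := by
  refine ⟨fun k => Qn k.val + ∑ i ∈ range 12, dgt B (6 + i) * (F (6 + i) k).val, ?_, ?_⟩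
  · intro k
    rw [sm_split h.base h.seven, hQ k]
    ring
  · funext k
    rw [Pi.add_apply, sF, Finset.sum_apply]
    push_cast
    congr 1
    refine Finset.sum_congr rfl fun i _ => ?_
    rw [Pi.smul_apply, nsmul_eq_mul, ZMod.natCast_zmod_val, dgt_shift]

lemma relm_spec (h : Facts pt F a7 sb) {Pp Pm q B : ℕ} {t : V}
    (hp : sF F Pp = t + fun _ => (q : ZMod 3)) (hm : sF F Pm = -(t + fun _ => (q : ZMod 3))) :
    (relm (pr 64 (xv pt (kn a7)) 18) Pp Pm q B).testBit (i3 t) = true := by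
  unfold relm
  cases hB : Nat.ble B 68719476735 with
  | false => rw [ifn_false]; exact FUL_testBit t
  | true =>
    have hB' : B < 2 ^ 36 := by
      have := Nat.le_of_ble_eq_true hB
      exact lt_of_le_of_lt this (by norm_num)
    rw [ifn_true, frn_eq]
    cases hd : dv3 (dotv (pr 64 (xv pt (kn a7)) 18) B) with
    | false => rw [ifn_false]; exact FUL_testBit t
    | true =>
      obtain ⟨Qn, hlt, hS, hq⟩ := quot_spec hB' hd
      obtain ⟨Q, hQ, hQv⟩ := h.quot hq
      rw [ifn_true, frn_eq, hS, cntv_eq hB']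
      have hb3 : ∀ i, dgt B i ≤ 3 := fun i => by have := dgt_lt B i; omega
      cases hpp : Nat.beq (Nat.shiftRight B 12) Pp with
      | true =>
        have e := Nat.eq_of_beq_eq_true hpp
        have hv : (fun k => (Q k : ZMod 3)) = (fun k : Fin 5 => ((Qn k.val + q : ℕ) : ZMod 3)) + t := by
          rw [hQv, e, hp]
          funext k
          simp only [Pi.add_apply, Nat.cast_add]
          ring
        rw [ifn_true]
        cases h6 : Nat.beq (∑ i ∈ range 18, dgt B i) 6 with
        | true =>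
          rw [ifn_true, ixp_eq hlt, ext_testBit, T6p_spec]
          have h1 := h.six (dgt B) hb3 (Nat.eq_of_beq_eq_true h6) Q hQ
          have e2 : (fun k => -(Q k : ZMod 3)) = -(fun k => (Q k : ZMod 3)) := rfl
          rw [e2, hv] at h1
          exact h1
        | false =>
          rw [ifn_false]
          cases h9 : Nat.beq (∑ i ∈ range 18, dgt B i) 9 with
          | false => rw [ifn_false]; exact FUL_testBit t
          | true =>
            rw [ifn_true, ixp_eq hlt, ext_testBit, T9_spec]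
            have h1 := h.nine (dgt B) hb3 (Nat.eq_of_beq_eq_true h9) Q hQ
            rw [hv] at h1
            exact h1
      | false =>
        rw [ifn_false]
        cases hmm : Nat.beq (Nat.shiftRight B 12) Pm with
        | false => rw [ifn_false]; exact FUL_testBit t
        | true =>
          have e := Nat.eq_of_beq_eq_true hmm
          have hv : -(fun k => (Q k : ZMod 3)) =
              (fun k : Fin 5 => ((2 * Qn k.val + q : ℕ) : ZMod 3)) + t := by
            rw [hQv, e, hm]
            funext k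
            simp only [Pi.add_apply, Pi.neg_apply, Nat.cast_add, Nat.cast_mul, Nat.cast_ofNat]
            have h3 : (3 : ZMod 3) = 0 := rfl
            linear_combination (-(Qn k.val : ZMod 3)) * h3
          rw [ifn_true]
          cases h6 : Nat.beq (∑ i ∈ range 18, dgt B i) 6 with
          | true =>
            rw [ifn_true, ixm_eq hlt, ext_testBit, T6m_spec]
            have h1 := h.six (dgt B) hb3 (Nat.eq_of_beq_eq_true h6) Q hQ
            have e2 : (fun k => -(Q k : ZMod 3)) = -(fun k => (Q k : ZMod 3)) := rfl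
            rw [e2, hv] at h1
            exact h1
          | false =>
            rw [ifn_false]
            cases h9 : Nat.beq (∑ i ∈ range 18, dgt B i) 9 with
            | false => rw [ifn_false]; exact FUL_testBit t
            | true =>
              rw [ifn_true, ixm_eq hlt, ext_testBit, T9_spec]
              have h1 := h.nine (dgt B) hb3 (Nat.eq_of_beq_eq_true h9) Q hQ
              intro h0
              rw [← hv, neg_eq_zero] at h0
              exact h1 h0

/-- intersection of the masks of a list of relations -/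
def mkm (X Pp Pm q : ℕ) (Bs : List ℕ) : ℕ :=
  List.rec (motive := fun _ => ℕ) FUL (fun B _ ih => Nat.land (relm X Pp Pm q B) ih) Bs

lemma mkm_spec (h : Facts pt F a7 sb) {Pp Pm q : ℕ} {t : V}
    (hp : sF F Pp = t + fun _ => (q : ZMod 3)) (hm : sF F Pm = -(t + fun _ => (q : ZMod 3)))
    (Bs : List ℕ) :
    (mkm (pr 64 (xv pt (kn a7)) 18) Pp Pm q Bs).testBit (i3 t) = true := by
  induction Bs with
  | nil => exact FUL_testBit t
  | cons B Bs ih =>
    have e : mkm (pr 64 (xv pt (kn a7)) 18) Pp Pm q (B :: Bs) =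
        relm (pr 64 (xv pt (kn a7)) 18) Pp Pm q B &&& mkm (pr 64 (xv pt (kn a7)) 18) Pp Pm q Bs := rfl
    rw [e, Nat.testBit_and, relm_spec h hp hm, ih]
    rfl

/-- the value `t` is excluded by the relation `p` of the list `sb` -/
def sbk (X Pp Pm q t : ℕ) (p : ℕ × ℕ) : Bool :=
  ifb (Nat.ble p.1 68719476735) (frb (dotv X p.1) fun S => ifb (dv3 S)
    (ifb (Nat.beq (Nat.shiftRight p.1 12) Pp) (tb p.2 (negc (addc (ixp S q) t)))
      (ifb (Nat.beq (Nat.shiftRight p.1 12) Pm) (tb p.2 (addc (ixm S q) t)) false)) false) false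

lemma sbk_spec (h : Facts pt F a7 sb) {Pp Pm q : ℕ} {t : V}
    (hp : sF F Pp = t + fun _ => (q : ZMod 3)) (hm : sF F Pm = -(t + fun _ => (q : ZMod 3)))
    {p : ℕ × ℕ} (hpsb : p ∈ sb) : sbk (pr 64 (xv pt (kn a7)) 18) Pp Pm q (i3 t) p = false := by
  unfold sbk
  cases hB : Nat.ble p.1 68719476735 with
  | false => rfl
  | true =>
    have hB' : p.1 < 2 ^ 36 := by
      have := Nat.le_of_ble_eq_true hB
      exact lt_of_le_of_lt this (by norm_num)
    rw [ifb_true, frb_eq]
    cases hd : dv3 (dotv (pr 64 (xv pt (kn a7)) 18) p.1) with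
    | false => rfl
    | true =>
      obtain ⟨Qn, hlt, hS, hq⟩ := quot_spec hB' hd
      obtain ⟨Q, hQ, hQv⟩ := h.quot hq
      have h1 := h.sbq p hpsb Q hQ
      have e2 : (fun k => -(Q k : ZMod 3)) = -(fun k => (Q k : ZMod 3)) := rfl
      rw [ifb_true, hS]
      cases hpp : Nat.beq (Nat.shiftRight p.1 12) Pp with
      | true =>
        have e := Nat.eq_of_beq_eq_true hpp
        have hv : (fun k => (Q k : ZMod 3)) = (fun k : Fin 5 => ((Qn k.val + q : ℕ) : ZMod 3)) + t := by
          rw [hQv, e, hp]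
          funext k
          simp only [Pi.add_apply, Nat.cast_add]
          ring
        rw [ifb_true, ixp_eq hlt, addc_eq, negc_eq, tb_eq, ← hv, ← e2]
        exact h1
      | false =>
        rw [ifb_false]
        cases hmm : Nat.beq (Nat.shiftRight p.1 12) Pm with
        | false => rfl
        | true =>
          have e := Nat.eq_of_beq_eq_true hmm
          have hv : -(fun k => (Q k : ZMod 3)) =
              (fun k : Fin 5 => ((2 * Qn k.val + q : ℕ) : ZMod 3)) + t := by
            rw [hQv, e, hm]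
            funext k
            simp only [Pi.add_apply, Pi.neg_apply, Nat.cast_add, Nat.cast_mul, Nat.cast_ofNat]
            have h3 : (3 : ZMod 3) = 0 := rfl
            linear_combination (-(Qn k.val : ZMod 3)) * h3
          rw [ifb_true, ixm_eq hlt, addc_eq, tb_eq, ← hv, ← e2]
          exact h1

/-- some member of a list satisfies `f` -/
def anyL {α : Type} (f : α → Bool) (l : List α) : Bool :=
  List.rec (motive := fun _ => Bool) false (fun a _ ih => ifb (f a) true ih) l

lemma anyL_false {α : Type} {f : α → Bool} {l : List α} (h : ∀ a ∈ l, f a = false) :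
    anyL f l = false := by
  induction l with
  | nil => rfl
  | cons a l ih =>
    have e : anyL f (a :: l) = ifb (f a) true (anyL f l) := rfl
    rw [e, h a (by simp), ifb_false, ih fun b hb => h b (by simp [hb])]

/-- the slow test, using the list `sb` -/
def slow (X : ℕ) (sb : List (ℕ × ℕ)) (Pp Pm q leaf M : ℕ) : Bool :=
  lpN 243 fun t => ifb (tb leaf t) true (ifb (tb M t) (anyL (sbk X Pp Pm q t) sb) true)

/-- the test of one leaf -/
def leafT (X : ℕ) (sb : List (ℕ × ℕ)) (Pp Pm q leaf : ℕ) (Bs : List ℕ) : Bool :=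
  frb (mkm X Pp Pm q Bs) fun M =>
    ifb (Nat.beq (Nat.land M leaf) M) true (slow X sb Pp Pm q leaf M)

lemma leafT_spec (h : Facts pt F a7 sb) {Pp Pm q leaf : ℕ} {t : V}
    (hp : sF F Pp = t + fun _ => (q : ZMod 3)) (hm : sF F Pm = -(t + fun _ => (q : ZMod 3)))
    {Bs : List ℕ} (hT : leafT (pr 64 (xv pt (kn a7)) 18) sb Pp Pm q leaf Bs = true) :
    leaf.testBit (i3 t) = true := by
  unfold leafT at hT
  rw [frb_eq] at hT
  have hM := mkm_spec h hp hm Bs
  set M := mkm (pr 64 (xv pt (kn a7)) 18) Pp Pm q Bs with hMdef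
  cases hb : Nat.beq (Nat.land M leaf) M with
  | true =>
    have e : M &&& leaf = M := Nat.eq_of_beq_eq_true hb
    rw [← e, Nat.testBit_and, Bool.and_eq_true] at hM
    exact hM.2
  | false =>
    rw [hb, ifb_false] at hT
    have h1 := lpN_spec hT (i3 t) (i3_lt t)
    rw [tb_eq, tb_eq, hM, ifb_true, anyL_false fun p hp' => sbk_spec h hp hm hp'] at h1
    cases hl : leaf.testBit (i3 t) with
    | true => rfl
    | false => rw [hl] at h1; exact absurd h1 (by simp)

end

/-! ### patterns -/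

lemma dgt_add {P i c : ℕ} (hP : P < 4 ^ i) (hc : c < 4) (j : ℕ) :
    dgt (P + c * 4 ^ i) j = dgt P j + if j = i then c else 0 := by
  unfold dgt
  rcases lt_trichotomy j i with h | h | h
  · rw [if_neg (by omega), add_zero]
    obtain ⟨m, rfl⟩ : ∃ m, i = j + 1 + m := ⟨i - j - 1, by omega⟩
    have e : P + c * 4 ^ (j + 1 + m) = P + 4 ^ j * (4 * (c * 4 ^ m)) := by
      rw [pow_add, pow_add]; ring
    rw [e, Nat.add_mul_div_left _ _ (by positivity), Nat.add_mul_mod_self_left]
  · subst h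
    rw [if_pos rfl, mul_comm, Nat.add_mul_div_left _ _ (by positivity), Nat.div_eq_of_lt hP,
      zero_add, Nat.zero_mod, zero_add, Nat.mod_eq_of_lt hc]
  · rw [if_neg (by omega), add_zero]
    have h1 : 4 ^ (i + 1) ≤ 4 ^ j := Nat.pow_le_pow_right (by norm_num) h
    have h2 : c * 4 ^ i ≤ 3 * 4 ^ i := Nat.mul_le_mul_right _ (by omega)
    have h3 : P + c * 4 ^ i < 4 ^ j := by
      have : 4 ^ (i + 1) = 4 * 4 ^ i := by rw [pow_succ]; ring
      omega
    rw [Nat.div_eq_of_lt h3, Nat.div_eq_of_lt (by omega)]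

lemma sF_add {F : ℕ → V} {P i c : ℕ} (hP : P < 4 ^ i) (hi : i < 12) (hc : c < 4) :
    sF F (P + c * 4 ^ i) = sF F P + c • F (6 + i) := by
  unfold sF
  simp only [dgt_add hP hc, add_smul, Finset.sum_add_distrib]
  congr 1
  rw [Finset.sum_eq_single i]
  · rw [if_pos rfl]
  · intro j _ hj
    rw [if_neg hj, zero_smul]
  · intro h
    exact absurd (mem_range.mpr hi) h

/-- the pattern code `P` describes the form with value `t`; only slots `< s` are used -/
def PV (F : ℕ → V) (s P : ℕ) (t : V) : Prop :=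
  ∃ Pp Pm q : ℕ, P = Pp + 2 ^ 24 * Pm + 2 ^ 48 * q ∧ Pp < 4 ^ s ∧ Pm < 4 ^ s ∧
    sF F Pp = t + (fun _ => (q : ZMod 3)) ∧ sF F Pm = -(t + fun _ => (q : ZMod 3))

/-- add a slot with sign plus -/
def plP (P i : ℕ) : ℕ := Nat.add P (Nat.mul 33554433 (Nat.pow 4 i))

/-- add a slot with sign minus -/
def miP (P i : ℕ) : ℕ := Nat.add P (Nat.add (Nat.mul 16777218 (Nat.pow 4 i)) 281474976710656)

/-- the opposite digits -/
def opp (g : V) : V := fun k => 2 - g k

lemma PV.mono {F : ℕ → V} {s s' P : ℕ} {t : V} (h : PV F s P t) (hs : s ≤ s') : PV F s' P t := by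
  obtain ⟨Pp, Pm, q, h1, h2, h3, h4⟩ := h
  have h5 : 4 ^ s ≤ 4 ^ s' := Nat.pow_le_pow_right (by norm_num) hs
  exact ⟨Pp, Pm, q, h1, by omega, by omega, h4⟩

lemma three_smul' (v : V) : (3 : ℕ) • v = 0 := (div3 5).three v

lemma PV.pl {F : ℕ → V} {i P : ℕ} {t : V} (h : PV F i P t) (hi : i < 12) :
    PV F (i + 1) (plP P i) (t + F (6 + i)) := by
  obtain ⟨Pp, Pm, q, h1, h2, h3, h4, h5⟩ := h
  have e4 : (4 : ℕ) ^ (i + 1) = 4 * 4 ^ i := by rw [pow_succ]; ring
  refine ⟨Pp + 1 * 4 ^ i, Pm + 2 * 4 ^ i, q, ?_, by omega, by omega, ?_, ?_⟩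
  · show P + 33554433 * 4 ^ i = _
    rw [h1]; ring
  · rw [sF_add h2 hi (by norm_num), h4, one_smul]
    abel
  · rw [sF_add h3 hi (by norm_num), h5]
    have h6 : (2 : ℕ) • F (6 + i) = -F (6 + i) := by
      rw [eq_neg_iff_add_eq_zero, ← three_smul' (F (6 + i)), succ_nsmul _ 2]
    rw [h6]
    abel

lemma PV.mi {F : ℕ → V} {i P : ℕ} {t : V} (h : PV F i P t) (hi : i < 12) :
    PV F (i + 1) (miP P i) (t + opp (F (6 + i))) := by
  obtain ⟨Pp, Pm, q, h1, h2, h3, h4, h5⟩ := h
  have e4 : (4 : ℕ) ^ (i + 1) = 4 * 4 ^ i := by rw [pow_succ]; ring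
  have h3' : (3 : ZMod 3) = 0 := rfl
  refine ⟨Pp + 2 * 4 ^ i, Pm + 1 * 4 ^ i, q + 1, ?_, by omega, by omega, ?_, ?_⟩
  · show P + (16777218 * 4 ^ i + 281474976710656) = _
    rw [h1]; ring
  · rw [sF_add h2 hi (by norm_num), h4]
    funext k
    have e2 : ((2 : ℕ) • F (6 + i)) k = 2 * F (6 + i) k := by
      rw [Pi.smul_apply, nsmul_eq_mul]; rfl
    rw [Pi.add_apply, Pi.add_apply, Pi.add_apply, Pi.add_apply, e2]
    simp only [opp, Nat.cast_add, Nat.cast_one]
    linear_combination (F (6 + i) k - 1) * h3'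
  · rw [sF_add h3 hi (by norm_num), h5]
    funext k
    have e2 : ((1 : ℕ) • F (6 + i)) k = F (6 + i) k := by rw [one_smul]
    rw [Pi.add_apply, Pi.neg_apply, Pi.neg_apply, Pi.add_apply, Pi.add_apply, Pi.add_apply, e2]
    simp only [opp, Nat.cast_add, Nat.cast_one]
    linear_combination h3'

/-- the layout of the leaves -/
def lay {σ : Type} (pl mi : σ → ℕ → σ) : List ℕ → List ℕ → σ → List σ
  | [], _, _ => []
  | r :: rs, ws, s =>
    (rs ++ ws).map (fun x => pl (pl s r) x) ++ ((rs ++ ws).map (fun x => pl (mi s r) x) ++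
      (lay pl mi rs ws s ++ (lay pl mi rs ws (pl s r) ++ lay pl mi rs ws (mi s r))))

lemma forall₂_map {α β : Type} {R : α → β → Prop} {γ : Type} {f : γ → α} {g : γ → β} {l : List γ}
    (h : ∀ c ∈ l, R (f c) (g c)) : List.Forall₂ R (l.map f) (l.map g) := by
  induction l with
  | nil => exact List.Forall₂.nil
  | cons a l ih =>
    exact List.Forall₂.cons (h a (by simp)) (ih fun c hc => h c (by simp [hc]))

lemma lay_PV {F : ℕ → V} {ws : List ℕ} : ∀ (rs : List ℕ) (s P : ℕ) (t : V), PV F s P t →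
    (rs ++ ws).Pairwise (· < ·) → (∀ i ∈ rs ++ ws, s ≤ i ∧ i < 12) →
    List.Forall₂ (PV F 12) (lay plP miP rs ws P)
      (lay (fun (t : V) i => t + F (6 + i)) (fun t i => t + opp (F (6 + i))) rs ws t)
  | [], _, _, _, _, _, _ => List.Forall₂.nil
  | r :: rs, s, P, t, hP, hpw, hlt => by
    have hr := hlt r (by simp)
    have hpw' : (r :: (rs ++ ws)).Pairwise (· < ·) := hpw
    rw [List.pairwise_cons] at hpw'
    have hPr : PV F r P t := hP.mono hr.1
    have hpl := hPr.pl hr.2
    have hmi := hPr.mi hr.2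
    have hlt' : ∀ i ∈ rs ++ ws, r + 1 ≤ i ∧ i < 12 := fun i hi =>
      ⟨hpw'.1 i hi, (hlt i (by rw [List.cons_append]; exact List.mem_cons_of_mem _ hi)).2⟩
    have hs : ∀ (P' : ℕ) (t' : V), PV F (r + 1) P' t' →
        List.Forall₂ (PV F 12) ((rs ++ ws).map fun x => plP P' x)
          ((rs ++ ws).map fun x => t' + F (6 + x)) := by
      intro P' t' hP'
      refine forall₂_map fun x hx => ?_
      exact ((hP'.mono (hlt' x hx).1).pl (hlt' x hx).2).mono (hlt' x hx).2
    rw [lay, lay]
    refine List.rel_append (hs _ _ hpl) (List.rel_append (hs _ _ hmi) (List.rel_append ?_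
      (List.rel_append ?_ ?_)))
    · exact lay_PV rs (r + 1) P t (hPr.mono (Nat.le_succ r)) hpw'.2 hlt'
    · exact lay_PV rs (r + 1) _ _ hpl hpw'.2 hlt'
    · exact lay_PV rs (r + 1) _ _ hmi hpw'.2 hlt'

/-- the test of one leaf with a pattern code -/
def leafP (X : ℕ) (sb : List (ℕ × ℕ)) (P leaf : ℕ) (Bs : List ℕ) : Bool :=
  frb P fun P => leafT X sb (Nat.mod P 16777216) (Nat.mod (Nat.shiftRight P 24) 16777216)
    (Nat.shiftRight P 48) leaf Bs

lemma leafP_spec {pt F : ℕ → V} {a7 : V} {sb : List (ℕ × ℕ)} (h : Facts pt F a7 sb) {P leaf : ℕ}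
    {t : V} (hP : PV F 12 P t) {Bs : List ℕ}
    (hT : leafP (pr 64 (xv pt (kn a7)) 18) sb P leaf Bs = true) : leaf.testBit (i3 t) = true := by
  obtain ⟨Pp, Pm, q, h1, h2, h3, h4, h5⟩ := hP
  unfold leafP at hT
  rw [frb_eq] at hT
  norm_num at h2 h3
  have e1 : Nat.mod P 16777216 = Pp := by
    show P % 16777216 = Pp
    norm_num at h1
    omega
  have e2 : Nat.mod (Nat.shiftRight P 24) 16777216 = Pm := by
    show (P >>> 24) % 16777216 = Pm
    rw [Nat.shiftRight_eq_div_pow]
    norm_num at h1 ⊢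
    omega
  have e3 : Nat.shiftRight P 48 = q := by
    show P >>> 48 = q
    rw [Nat.shiftRight_eq_div_pow]
    norm_num at h1 ⊢
    omega
  rw [e1, e2, e3] at hT
  exact leafT_spec h h4 h5 hT

/-- the test of a list of leaves -/
def chkL (X : ℕ) (sb : List (ℕ × ℕ)) (Ps : List ℕ) : List ℕ → List (List ℕ) → Bool :=
  List.rec (motive := fun _ => List ℕ → List (List ℕ) → Bool)
    (fun ls _ => List.rec (motive := fun _ => Bool) true (fun _ _ _ => false) ls)
    (fun P _ ih ls rs => List.rec (motive := fun _ => Bool) false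
      (fun l ls' _ => List.rec (motive := fun _ => Bool) false
        (fun r rs' _ => ifb (leafP X sb P l r) (ih ls' rs') false) rs) ls) Ps

lemma chkL_spec {pt F : ℕ → V} {a7 : V} {sb : List (ℕ × ℕ)} (h : Facts pt F a7 sb) :
    ∀ (Ps : List ℕ) (ts : List V) (ls : List ℕ) (rs : List (List ℕ)),
      List.Forall₂ (PV F 12) Ps ts → chkL (pr 64 (xv pt (kn a7)) 18) sb Ps ls rs = true →
      List.Forall₂ (fun (l : ℕ) (t : V) => l.testBit (i3 t) = true) ls ts
  | _, _, ls, rs, List.Forall₂.nil, hT => by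
    cases ls with
    | nil => exact List.Forall₂.nil
    | cons l ls => exact absurd hT (by simp [chkL])
  | _, _, ls, rs, @List.Forall₂.cons _ _ _ P t Ps ts hP hPs, hT => by
    cases ls with
    | nil => exact absurd hT (by simp [chkL])
    | cons l ls =>
      cases rs with
      | nil => exact absurd hT (by simp [chkL])
      | cons r rs =>
        have e : chkL (pr 64 (xv pt (kn a7)) 18) sb (P :: Ps) (l :: ls) (r :: rs) =
          ifb (leafP (pr 64 (xv pt (kn a7)) 18) sb P l r)
            (chkL (pr 64 (xv pt (kn a7)) 18) sb Ps ls rs) false := rfl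
        rw [e] at hT
        cases h1 : leafP (pr 64 (xv pt (kn a7)) 18) sb P l r with
        | false => rw [h1] at hT; exact absurd hT (by simp)
        | true =>
          rw [h1, ifb_true] at hT
          exact List.Forall₂.cons (leafP_spec h hP h1) (chkL_spec h Ps ts ls rs hPs hT)

/-- free slots `r1..r5` -/
def sR : List ℕ := [0, 1, 2, 3, 4]
/-- free slots `w1..w7` -/
def sW : List ℕ := [5, 6, 7, 8, 9, 10, 11]

/-- the root check -/
def rootOK (X : ℕ) (sb : List (ℕ × ℕ)) (LU LN : List ℕ) (RU RN : List (List ℕ)) : Bool :=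
  ifb (chkL X sb ((sR ++ sW).map (plP 0)) LU RU) (chkL X sb (lay plP miP sR sW 0) LN RN) false

lemma PV_zero (F : ℕ → V) : PV F 0 0 0 := by
  refine ⟨0, 0, 0, by norm_num, by norm_num, by norm_num, ?_, ?_⟩
  · unfold sF dgt
    simp
    rfl
  · unfold sF dgt
    simp
    rfl

/-- the root theorem -/
theorem root_spec {pt F : ℕ → V} {a7 : V} {sb : List (ℕ × ℕ)} (h : Facts pt F a7 sb)
    {LU LN : List ℕ} {RU RN : List (List ℕ)}
    (hT : rootOK (pr 64 (xv pt (kn a7)) 18) sb LU LN RU RN = true) :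
    List.Forall₂ (fun (l : ℕ) (t : V) => l.testBit (i3 t) = true) LU
      ((sR ++ sW).map fun i => F (6 + i)) ∧
    List.Forall₂ (fun (l : ℕ) (t : V) => l.testBit (i3 t) = true) LN
      (lay (fun (t : V) i => t + F (6 + i)) (fun t i => t + opp (F (6 + i))) sR sW 0) := by
  unfold rootOK at hT
  cases h1 : chkL (pr 64 (xv pt (kn a7)) 18) sb ((sR ++ sW).map (plP 0)) LU RU with
  | false => rw [h1] at hT; exact absurd hT (by simp)
  | true =>
    rw [h1, ifb_true] at hT
    constructor
    · refine chkL_spec h _ _ LU RU (forall₂_map fun i hi => ?_) h1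
      have hi' : i < 12 := by
        have : ∀ i ∈ sR ++ sW, i < 12 := by decide
        exact this i hi
      have := (((PV_zero F).mono (Nat.zero_le i)).pl hi').mono hi'
      rwa [zero_add] at this
    · exact chkL_spec h _ _ LN RN (lay_PV sR 0 0 0 (PV_zero F) (by decide) (by decide)) hT

end Pool.Agent.H74.EGZ
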