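import Mathlib
import Pool.Agent.H74.EGZ.Root

/-!
# States and violated relations for the explicit refutation trees
-/

set_option autoImplicit false

namespace Pool.Agent.H74.EGZ

open Finset Pool.Agent.H29.EGZ

/-- `2 ^ 1152` -/
def P1152 : ℕ := 61172327492847069472032393719205726809135813743440799050195397570919697796091958321786863938157971792315844506873509046544459008355036150650333616890210625686064472971480622053109783197015954399612052812141827922088117778074833698589048132156300022844899841969874763871624802603515651998113045708569927237462546233168834543264678118409417047146496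

/-- the packed vectors of a state -/
def stX (A : ℕ) : ℕ := Nat.mod A P1152

/-- the assigned slots of a state (mask with stride 2) -/
def stM (A : ℕ) : ℕ := Nat.shiftRight A 1152

lemma P1152_eq : P1152 = 2 ^ 1152 := by decide +kernel

/-- is the relation `B` violated? -/
def vio (sb : List (ℕ × ℕ)) (A B : ℕ) : Bool :=
  ifb (Nat.beq (Nat.land B (stM A)) B) (frb (dotv (stX A) B) fun S => ifb (dv3 S)
    (frb (cntv B) fun c =>
      ifb (Nat.beq c 6) (frb (negc (ixp S 0)) fun e => ifb (tb capm e) true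
        (anyL (fun p => ifb (Nat.beq p.1 B) (tb p.2 e) false) sb))
      (ifb (Nat.beq c 9) (Nat.beq (ixp S 0) 0) false)) false) false

/-- packed digits (times three) of a radix-5 code -/
def cv3 (p : ℕ) : ℕ :=
  Nat.add (Nat.add (Nat.add (Nat.add (Nat.mul 3 (Nat.mod p 5))
    (Nat.mul 12288 (Nat.mod (Nat.div p 5) 5)))
    (Nat.mul 50331648 (Nat.mod (Nat.div p 25) 5)))
    (Nat.mul 206158430208 (Nat.mod (Nat.div p 125) 5)))
    (Nat.mul 844424930131968 (Nat.mod (Nat.div p 625) 5))

/-- radix-5 code -/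
def ix5 (g : V) : ℕ :=
  (g 0).val + 5 * (g 1).val + 25 * (g 2).val + 125 * (g 3).val + 625 * (g 4).val

/-- assign the slot `6 + s` -/
def sxt (A s p : ℕ) : ℕ :=
  ifn (tb (stM A) (Nat.mul 2 (Nat.add 6 s))) A
    (Nat.add A (Nat.add (Nat.mul (cv3 p) (Nat.pow 2 (Nat.mul 64 (Nat.sub 11 s))))
      (Nat.mul (Nat.mul 3 (Nat.pow 4 (Nat.add 6 s))) P1152)))

/-- digits of the assigned slots -/
def asgF (F : ℕ → V) (asg : ℕ → Bool) (i : ℕ) : V := if asg i then F i else 0

/-- mask of the assigned slots -/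
def asgM (asg : ℕ → Bool) (i : ℕ) : ℕ := if asg i then 3 else 0

/-- valid states -/
def Ok (pt F : ℕ → V) (A : ℕ) : Prop :=
  ∃ asg : ℕ → Bool, A = pk 2 (asgM asg) 18 * 2 ^ 1152 + pr 64 (xv pt (asgF F asg)) 18

lemma pr_lt (pt A : ℕ → V) : pr 64 (xv pt A) 18 < 2 ^ 1152 := by
  have h : ∀ n, pr 64 (xv pt A) n < 2 ^ (64 * n) := by
    intro n
    induction n with
    | zero => simp [pr]
    | succ n ih =>
      rw [pr]
      have h1 := xv_lt pt A n
      have h2 : (2 : ℕ) ^ 52 < 2 ^ 64 := by norm_num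
      have h3 : (pr 64 (xv pt A) n + 1) * 2 ^ 64 ≤ 2 ^ (64 * n) * 2 ^ 64 := Nat.mul_le_mul_right _ ih
      have h4 : 2 ^ (64 * (n + 1)) = 2 ^ (64 * n) * 2 ^ 64 := by rw [mul_add, mul_one, pow_add]
      rw [h4]
      calc pr 64 (xv pt A) n * 2 ^ 64 + xv pt A n < pr 64 (xv pt A) n * 2 ^ 64 + 2 ^ 64 := by
            omega
        _ = (pr 64 (xv pt A) n + 1) * 2 ^ 64 := by ring
        _ ≤ _ := h3
  exact h 18

lemma Ok.stX {pt F : ℕ → V} {A : ℕ} {asg : ℕ → Bool}
    (h : A = pk 2 (asgM asg) 18 * 2 ^ 1152 + pr 64 (xv pt (asgF F asg)) 18) :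
    stX A = pr 64 (xv pt (asgF F asg)) 18 := by
  show A % P1152 = _
  rw [P1152_eq, h, Nat.mul_add_mod', Nat.mod_eq_of_lt (pr_lt pt _)]

lemma Ok.stM {pt F : ℕ → V} {A : ℕ} {asg : ℕ → Bool}
    (h : A = pk 2 (asgM asg) 18 * 2 ^ 1152 + pr 64 (xv pt (asgF F asg)) 18) :
    stM A = pk 2 (asgM asg) 18 := by
  show A >>> 1152 = _
  rw [Nat.shiftRight_eq_div_pow, h, add_comm, Nat.add_mul_div_right _ _ (by positivity),
    Nat.div_eq_of_lt (pr_lt pt _), zero_add]

lemma asgM_lt (asg : ℕ → Bool) (i : ℕ) : asgM asg i < 2 ^ 2 := by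
  unfold asgM; split_ifs <;> norm_num

/-- codes inside the mask -/
lemma land_mask {B : ℕ} {asg : ℕ → Bool} (h : B &&& pk 2 (asgM asg) 18 = B) :
    B < 2 ^ 36 ∧ ∀ i < 18, asg i = false → dgt B i = 0 := by
  constructor
  · refine lt_of_le_of_lt ?_ (pk_lt (w := 2) (n := 18) fun i _ => asgM_lt asg i)
    rw [← h]
    exact Nat.and_le_right
  · intro i hi hf
    refine Nat.eq_of_testBit_eq fun r => ?_
    rw [Nat.zero_testBit]
    rcases Nat.lt_or_ge r 2 with hr | hr
    · rw [dgt_testBit B i r hr, ← h, Nat.testBit_and, pk_testBit (fun i _ => asgM_lt asg i) hi hr]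
      have : asgM asg i = 0 := by unfold asgM; rw [hf]; rfl
      rw [this, Nat.zero_testBit, Bool.and_false]
    · exact Nat.testBit_eq_false_of_lt (lt_of_lt_of_le (dgt_lt B i)
          (le_trans (by norm_num : 4 ≤ 2 ^ 2) (Nat.pow_le_pow_right (by norm_num) hr)))

theorem vio_ok {pt F : ℕ → V} {a7 : V} {sb : List (ℕ × ℕ)} (h : Facts pt F a7 sb) {A B : ℕ}
    (hA : Ok pt F A) (hv : vio sb A B = true) : False := by
  obtain ⟨asg, hA⟩ := hA
  have hX := Ok.stX hA
  have hM := Ok.stM hA
  unfold vio at hv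
  rw [hX, hM] at hv
  cases h1 : Nat.beq (Nat.land B (pk 2 (asgM asg) 18)) B with
  | false => rw [h1] at hv; exact absurd hv (by simp)
  | true =>
    obtain ⟨hB, h0⟩ := land_mask (Nat.eq_of_beq_eq_true h1)
    rw [h1, ifb_true, frb_eq] at hv
    cases hd : dv3 (dotv (pr 64 (xv pt (asgF F asg)) 18) B) with
    | false => rw [hd] at hv; exact absurd hv (by simp)
    | true =>
      obtain ⟨Qn, hlt, hS, hq⟩ := quot_spec hB hd
      rw [hd, ifb_true, frb_eq, hS, cntv_eq hB, ixp_eq hlt] at hv
      have hQ : ∀ k : Fin 5, sm pt F (dgt B) k = 3 * Qn k.val := by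
        intro k
        rw [← hq k]
        unfold sm
        refine Finset.sum_congr rfl fun i hi => ?_
        cases ha : asg i with
        | false => rw [h0 i (mem_range.mp hi) ha, zero_mul, zero_mul]
        | true =>
          have : asgF F asg i = F i := by unfold asgF; rw [ha]; rfl
          rw [this]
      have hb3 : ∀ i, dgt B i ≤ 3 := fun i => by have := dgt_lt B i; omega
      have ev : (fun k : Fin 5 => ((Qn k.val + 0 : ℕ) : ZMod 3)) = fun k : Fin 5 => ((Qn k.val : ℕ) : ZMod 3) := by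
        funext k
        rw [add_zero]
      rw [ev] at hv
      cases h6 : Nat.beq (∑ i ∈ range 18, dgt B i) 6 with
      | true =>
        rw [h6, ifb_true, frb_eq, negc_eq] at hv
        have hs6 := h.six (dgt B) hb3 (Nat.eq_of_beq_eq_true h6) (fun k => Qn k.val) hQ
        cases hc : tb capm (i3 (-fun k : Fin 5 => ((Qn k.val : ℕ) : ZMod 3))) with
        | true =>
          rw [tb_eq, mem_cap] at hc
          exact hs6 hc
        | false =>
          rw [hc, ifb_false, anyL_false] at hv
          · exact absurd hv (by simp)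
          · intro p hp
            cases hpb : Nat.beq p.1 B with
            | false => rfl
            | true =>
              have e := Nat.eq_of_beq_eq_true hpb
              rw [ifb_true, tb_eq]
              exact h.sbq p hp (fun k => Qn k.val) (by rw [e]; exact hQ)
      | false =>
        rw [h6, ifb_false] at hv
        cases h9 : Nat.beq (∑ i ∈ range 18, dgt B i) 9 with
        | false => rw [h9] at hv; exact absurd hv (by simp)
        | true =>
          rw [h9, ifb_true] at hv
          exact h.nine (dgt B) hb3 (Nat.eq_of_beq_eq_true h9) (fun k => Qn k.val) hQ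
            (i3_eq_zero.mp (Nat.eq_of_beq_eq_true hv))

lemma cv3_eq (g : V) : cv3 (ix5 g) = pk 12 (fun k => 3 * (g (k5 k)).val) 5 := by
  have h0 := ZMod.val_lt (g 0)
  have h1 := ZMod.val_lt (g 1)
  have h2 := ZMod.val_lt (g 2)
  have h3 := ZMod.val_lt (g 3)
  have h4 := ZMod.val_lt (g 4)
  have e0 : ix5 g % 5 = (g 0).val := by unfold ix5; omega
  have e1 : ix5 g / 5 % 5 = (g 1).val := by unfold ix5; omega
  have e2 : ix5 g / 25 % 5 = (g 2).val := by unfold ix5; omega
  have e3 : ix5 g / 125 % 5 = (g 3).val := by unfold ix5; omega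
  have e4 : ix5 g / 625 % 5 = (g 4).val := by unfold ix5; omega
  have h : cv3 (ix5 g) = 3 * (ix5 g % 5) + 12288 * (ix5 g / 5 % 5) + 50331648 * (ix5 g / 25 % 5)
      + 206158430208 * (ix5 g / 125 % 5) + 844424930131968 * (ix5 g / 625 % 5) := rfl
  rw [h, e0, e1, e2, e3, e4]
  simp only [pk]
  have k0 : k5 0 = 0 := rfl
  have k1 : k5 (0 + 1) = 1 := rfl
  have k2 : k5 (0 + 1 + 1) = 2 := rfl
  have k3 : k5 (0 + 1 + 1 + 1) = 3 := rfl
  have k4 : k5 (0 + 1 + 1 + 1 + 1) = 4 := rfl
  rw [k0, k1, k2, k3, k4]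
  norm_num
  ring

lemma pk_upd (w : ℕ) (x : ℕ → ℕ) {n i : ℕ} (hi : i < n) (v : ℕ) :
    pk w (fun j => x j + if j = i then v else 0) n = pk w x n + v * 2 ^ (w * i) := by
  rw [pk_eq_sum, pk_eq_sum]
  simp only [add_mul, Finset.sum_add_distrib]
  congr 1
  rw [Finset.sum_eq_single i]
  · rw [if_pos rfl]
  · intro j _ hj
    rw [if_neg hj, zero_mul]
  · intro h
    exact absurd (mem_range.mpr hi) h

lemma pr_upd (w : ℕ) (x : ℕ → ℕ) {n i : ℕ} (hi : i < n) (v : ℕ) :
    pr w (fun j => x j + if j = i then v else 0) n = pr w x n + v * 2 ^ (w * (n - 1 - i)) := by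
  rw [pr_eq_sum, pr_eq_sum]
  simp only [add_mul, Finset.sum_add_distrib]
  congr 1
  rw [Finset.sum_eq_single i]
  · rw [if_pos rfl]
  · intro j _ hj
    rw [if_neg hj, zero_mul]
  · intro h
    exact absurd (mem_range.mpr hi) h

theorem sxt_ok {pt F : ℕ → V} {A s : ℕ} (hs : s < 12) (hA : Ok pt F A) :
    Ok pt F (sxt A s (ix5 (F (6 + s)))) := by
  obtain ⟨asg, hA⟩ := hA
  unfold sxt
  cases ht : tb (stM A) (Nat.mul 2 (Nat.add 6 s)) with
  | true => exact ⟨asg, hA⟩
  | false =>
    rw [ifn_false]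
    rw [Ok.stM hA, tb_eq] at ht
    have hi : 6 + s < 18 := by omega
    have hns : asg (6 + s) = false := by
      have e : Nat.mul 2 (Nat.add 6 s) = 2 * (6 + s) + 0 := rfl
      rw [e, pk_testBit (fun i _ => asgM_lt asg i) hi (by norm_num)] at ht
      cases ha : asg (6 + s) with
      | false => rfl
      | true =>
        have : asgM asg (6 + s) = 3 := by unfold asgM; rw [ha]; rfl
        rw [this] at ht
        exact absurd ht (by decide)
    refine ⟨fun j => if j = 6 + s then true else asg j, ?_⟩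
    have e1 : pk 2 (asgM fun j => if j = 6 + s then true else asg j) 18 =
        pk 2 (asgM asg) 18 + 3 * 2 ^ (2 * (6 + s)) := by
      rw [← pk_upd 2 (asgM asg) hi 3]
      refine pk_congr fun j _ => ?_
      unfold asgM
      by_cases hj : j = 6 + s
      · rw [hj, hns]; simp
      · simp [hj]
    have e2 : pr 64 (xv pt (asgF F fun j => if j = 6 + s then true else asg j)) 18 =
        pr 64 (xv pt (asgF F asg)) 18 + cv3 (ix5 (F (6 + s))) * 2 ^ (64 * (18 - 1 - (6 + s))) := by
      rw [← pr_upd 64 (xv pt (asgF F asg)) hi, pr_eq_sum, pr_eq_sum]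
      refine Finset.sum_congr rfl fun j _ => ?_
      congr 1
      by_cases hj : j = 6 + s
      · rw [if_pos hj, hj, cv3_eq]
        unfold xv
        rw [pk_eq_sum, pk_eq_sum, pk_eq_sum, ← Finset.sum_add_distrib]
        refine Finset.sum_congr rfl fun k _ => ?_
        have a1 : asgF F (fun j => if j = 6 + s then true else asg j) (6 + s) = F (6 + s) := by
          unfold asgF; simp
        have a2 : asgF F asg (6 + s) = 0 := by unfold asgF; rw [hns]; rfl
        rw [a1, a2]
        have a3 : ((0 : V) (k5 k)).val = 0 := ZMod.val_zero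
        rw [a3]
        ring
      · rw [if_neg hj, add_zero]
        unfold xv
        refine pk_congr fun k _ => ?_
        have a1 : asgF F (fun j => if j = 6 + s then true else asg j) j = asgF F asg j := by
          unfold asgF; simp [hj]
        rw [a1]
    rw [e1, e2]
    have e3 : 18 - 1 - (6 + s) = 11 - s := by omega
    have e4 : (2 : ℕ) ^ (2 * (6 + s)) = 4 ^ (6 + s) := by rw [pow_mul]; norm_num
    rw [e3, e4]
    show A + (cv3 (ix5 (F (6 + s))) * 2 ^ (64 * (11 - s)) + 3 * 4 ^ (6 + s) * P1152) = _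
    rw [P1152_eq, hA]
    ring

/-- the initial state: base points and `v7` assigned -/
theorem ok_init {pt F : ℕ → V} {a7 : V} {sb : List (ℕ × ℕ)} (h : Facts pt F a7 sb) {X : ℕ}
    (hX : X = pr 64 (xv pt (kn a7)) 18) : Ok pt F (Nat.add (Nat.mul 4095 P1152) X) := by
  refine ⟨fun i => decide (i < 6), ?_⟩
  show 4095 * P1152 + X = _
  have e1 : pk 2 (asgM fun i => decide (i < 6)) 18 = 4095 := by decide +kernel
  have e2 : ∀ i, asgF F (fun i => decide (i < 6)) i = kn a7 i := by
    intro i
    unfold asgF kn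
    by_cases h6 : i < 6
    · by_cases h5 : i = 5
      · simp [h5, h.seven]
      · simp [h6, h5, h.base i (by omega)]
    · simp [h6, show i ≠ 5 by omega]
  have e3 : pr 64 (xv pt (asgF F fun i => decide (i < 6))) 18 = pr 64 (xv pt (kn a7)) 18 := by
    have : asgF F (fun i => decide (i < 6)) = kn a7 := funext e2
    rw [this]
  rw [e1, e3, hX, P1152_eq]

end Pool.Agent.H74.EGZ
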