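import Mathlib
import Pool.Agent.H74.EGZ.Fb
import Pool.Agent.H29.EGZ.S.Stage
import Pool.Agent.H94.Lift.Defs

/-!
# The link between normalised good lifts and the search
-/

set_option autoImplicit false

namespace Pool.Agent.H74.EGZ

open Finset Pool.Agent.H29.EGZ

/-- the points of the slots -/
def ptf (pts : List ℕ) (i : ℕ) : V := dec (pts.getD i 0)

/-- `n` or zero -/
def ind (b : Bool) (n : ℕ) : ℕ := Bool.rec (motive := fun _ => ℕ) 0 n b

/-- the coefficients of a parallelogram, in codes -/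
def parc (a b c d p : ℕ) : ℕ :=
  Nat.add (Nat.add (Nat.add (ind (Nat.beq p a) 1) (ind (Nat.beq p b) 1)) (ind (Nat.beq p c) 2))
    (ind (Nat.beq p d) 2)

/-- the points of the slots are 18 different points of the cap -/
def ptsOK (pts : List ℕ) : Prop :=
  pts.length = 18 ∧ (∀ p ∈ pts, p ∈ capCodes) ∧ pts.Nodup

instance (pts : List ℕ) : Decidable (ptsOK pts) := by unfold ptsOK; infer_instance

/-- the check of the list `sb` : two orientations for every parallelogram -/
def sbOK (pts : List ℕ) : List (ℕ × ℕ × ℕ × ℕ × ℕ) → List (ℕ × ℕ) → Bool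
  | [], [] => true
  | q :: Qs, s1 :: s2 :: ss =>
    (pts.elem q.1 && pts.elem q.2.1 && pts.elem q.2.2.1 && pts.elem q.2.2.2.1) &&
    (Nat.beq (addc q.1 q.2.1) (addc q.2.2.1 q.2.2.2.1) &&
    (lpN 18 (fun i => Nat.beq (dgt s1.1 i) (parc q.1 q.2.1 q.2.2.1 q.2.2.2.1 (pts.getD i 0))) &&
    (lpN 18 (fun i => Nat.beq (dgt s2.1 i) (parc q.2.2.1 q.2.2.2.1 q.1 q.2.1 (pts.getD i 0))) &&
    (Nat.beq s1.2 q.2.2.2.2 &&
    (lpN 243 (fun e => ifb (tb s2.2 e) (tb q.2.2.2.2
      (addc (negc (addc (addc q.1 q.2.1) (addc q.2.2.1 q.2.2.2.1))) (negc e))) true) &&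
    sbOK pts Qs ss)))))
  | _, _ => false

lemma cap_lt : ∀ p ∈ capCodes, p < 243 := by decide

lemma dec_inj' {m n : ℕ} (hm : m < 243) (hn : n < 243) (h : dec m = dec n) : m = n := by
  rw [← i3_dec hm, ← i3_dec hn, h]

lemma parc_eq {a b c d p : ℕ} (ha : a < 243) (hb : b < 243) (hc : c < 243) (hd : d < 243)
    (hp : p < 243) : parc a b c d p = par (dec a) (dec b) (dec c) (dec d) (dec p) := by
  have h : ∀ {a : ℕ}, a < 243 → ∀ n, ind (Nat.beq p a) n = if dec p = dec a then n else 0 := by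
    intro a ha n
    by_cases h : p = a
    · subst h
      rw [if_pos rfl, show Nat.beq p p = true from Nat.beq_refl p]
      rfl
    · rw [if_neg fun h' => h (dec_inj' hp ha h')]
      have : Nat.beq p a = false := by
        rw [← Bool.not_eq_true, Nat.beq_eq]; exact h
      rw [this]
      rfl
  unfold parc par
  rw [h ha, h hb, h hc, h hd]
  rfl

section

variable {pts : List ℕ} (hp : ptsOK pts)
include hp

lemma pt_lt (i : ℕ) : pts.getD i 0 < 243 := by
  by_cases hi : i < pts.length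
  · rw [List.getD_eq_getElem _ _ hi]
    exact cap_lt _ (hp.2.1 _ (List.getElem_mem _))
  · rw [List.getD_eq_default _ _ (by omega)]
    norm_num

lemma pt_mem {i : ℕ} (hi : i < 18) : ptf pts i ∈ cap45 := by
  have hi' : i < pts.length := by rw [hp.1]; exact hi
  unfold ptf
  rw [List.getD_eq_getElem _ _ hi']
  exact mem_cap45 (hp.2.1 _ (List.getElem_mem _))

lemma pt_inj {i j : ℕ} (hi : i < 18) (hj : j < 18) (h : ptf pts i = ptf pts j) : i = j := by
  have hi' : i < pts.length := by rw [hp.1]; exact hi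
  have hj' : j < pts.length := by rw [hp.1]; exact hj
  have h1 := dec_inj' (pt_lt hp i) (pt_lt hp j) h
  rw [List.getD_eq_getElem _ _ hi', List.getD_eq_getElem _ _ hj'] at h1
  exact (List.Nodup.getElem_inj_iff hp.2.2).mp h1

lemma exists_slot {a : ℕ} (ha : a ∈ pts) : ∃ i < 18, pts.getD i 0 = a := by
  obtain ⟨i, hi, rfl⟩ := List.getElem_of_mem ha
  exact ⟨i, by rw [← hp.1]; exact hi, List.getD_eq_getElem _ _ hi⟩

lemma bf_par {a b c d B : ℕ} (ha : a ∈ pts) (hb : b ∈ pts) (hc : c ∈ pts) (hd : d ∈ pts)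
    (hB : ∀ i < 18, dgt B i = parc a b c d (pts.getD i 0)) :
    bf (ptf pts) (dgt B) = par (dec a) (dec b) (dec c) (dec d) := by
  have lt : ∀ {a}, a ∈ pts → a < 243 := fun h => cap_lt _ (hp.2.1 _ h)
  funext u
  by_cases h : ∃ i < 18, ptf pts i = u
  · obtain ⟨i, hi, hu⟩ := h
    unfold bf
    rw [Finset.sum_eq_single i]
    · rw [if_pos hu, hB i hi, parc_eq (lt ha) (lt hb) (lt hc) (lt hd) (pt_lt hp i)]
      have : dec (pts.getD i 0) = u := hu
      rw [this]
    · intro j hj hji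
      rw [if_neg]
      intro hju
      exact hji (pt_inj hp (mem_range.mp hj) hi (hju.trans hu.symm))
    · intro h; exact absurd (mem_range.mpr hi) h
  · have ne : ∀ {a}, a ∈ pts → u ≠ dec a := by
      intro a ha hu
      obtain ⟨i, hi, hi'⟩ := exists_slot hp ha
      exact h ⟨i, hi, by unfold ptf; rw [hi', hu]⟩
    unfold bf par
    rw [if_neg (ne ha), if_neg (ne hb), if_neg (ne hc), if_neg (ne hd)]
    refine Finset.sum_eq_zero fun i hi => ?_
    rw [if_neg]
    intro hu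
    exact h ⟨i, mem_range.mp hi, hu⟩

omit hp in
lemma dec_addc {a b : ℕ} (ha : a < 243) (hb : b < 243) : dec (addc a b) = dec a + dec b := by
  conv_lhs => rw [← i3_dec ha, ← i3_dec hb, addc_eq, dec_i3]

lemma sb_spec {x : V → (Fin 5 → ZMod 9)} (hx : GoodLift cap45 x) :
    ∀ (Q : List (ℕ × ℕ × ℕ × ℕ × ℕ)) (sb : List (ℕ × ℕ)), sbOK pts Q sb = true → Forb x Q →
    ∀ p ∈ sb, ∀ Qv : Fin 5 → ℕ,
      (∀ k, sm (ptf pts) (fun i => dg x (ptf pts i)) (dgt p.1) k = 3 * Qv k) →
      p.2.testBit (i3 fun k => -(Qv k : ZMod 3)) = false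
  | [], [], _, _ => by intro p hp'; exact absurd hp' (by simp)
  | [], s :: ss, h, _ => absurd h (by simp [sbOK])
  | q :: Qs, [], h, _ => absurd h (by simp [sbOK])
  | q :: Qs, [s], h, _ => absurd h (by simp [sbOK])
  | q :: Qs, s1 :: s2 :: ss, h, hf => by
    simp only [sbOK, Bool.and_eq_true] at h
    obtain ⟨⟨⟨⟨ha, hb⟩, hc⟩, hd⟩, hsum, h1, h2, h3, h4, hrest⟩ := h
    have ha' : q.1 ∈ pts := List.elem_iff.mp ha
    have hb' : q.2.1 ∈ pts := List.elem_iff.mp hb
    have hc' : q.2.2.1 ∈ pts := List.elem_iff.mp hc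
    have hd' : q.2.2.2.1 ∈ pts := List.elem_iff.mp hd
    have lt : ∀ {a}, a ∈ pts → a < 243 := fun h => cap_lt _ (hp.2.1 _ h)
    have mc : ∀ {a}, a ∈ pts → dec a ∈ cap45 := fun h => mem_cap45 (hp.2.1 _ h)
    have hfq : ∀ k < 243, Nat.testBit q.2.2.2.2 k = true →
      ev cap45 x (par (dec q.1) (dec q.2.1) (dec q.2.2.1) (dec q.2.2.2.1)) ≠ dec k :=
      hf q (by simp)
    have hrel : dec q.1 + dec q.2.1 = dec q.2.2.1 + dec q.2.2.2.1 := by
      rw [← dec_addc (lt ha') (lt hb'), ← dec_addc (lt hc') (lt hd'),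
        Nat.eq_of_beq_eq_true hsum]
    intro p hpm Qv hQ
    rcases List.mem_cons.mp hpm with rfl | hpm
    · -- first orientation
      have hB : ∀ i < 18, dgt p.1 i = parc q.1 q.2.1 q.2.2.1 q.2.2.2.1 (pts.getD i 0) :=
        fun i hi => Nat.eq_of_beq_eq_true (lpN_spec h1 i hi)
      have hev := ev_bf hx (fun i hi => pt_mem hp hi) (fun i _ => rfl) hQ
      rw [bf_par hp ha' hb' hc' hd' hB] at hev
      cases hbit : p.2.testBit (i3 fun k => -(Qv k : ZMod 3)) with
      | false => rfl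
      | true =>
        rw [Nat.eq_of_beq_eq_true h3] at hbit
        exact absurd (by rw [hev, dec_i3]) (hfq _ (i3_lt _) hbit)
    rcases List.mem_cons.mp hpm with rfl | hpm
    · -- second orientation
      have hB : ∀ i < 18, dgt p.1 i = parc q.2.2.1 q.2.2.2.1 q.1 q.2.1 (pts.getD i 0) :=
        fun i hi => Nat.eq_of_beq_eq_true (lpN_spec h2 i hi)
      have hev := ev_bf hx (fun i hi => pt_mem hp hi) (fun i _ => rfl) hQ
      rw [bf_par hp hc' hd' ha' hb' hB, ev_swap hx.lift (mc ha') (mc hb') (mc hc') (mc hd')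
        hrel] at hev
      cases hbit : p.2.testBit (i3 fun k => -(Qv k : ZMod 3)) with
      | false => rfl
      | true =>
        have h5 := lpN_spec h4 _ (i3_lt fun k => -(Qv k : ZMod 3))
        rw [tb_eq, hbit, ifb_true, tb_eq] at h5
        have e1 : addc (negc (addc (addc q.1 q.2.1) (addc q.2.2.1 q.2.2.2.1)))
            (negc (i3 fun k => -(Qv k : ZMod 3))) =
            i3 (-(dec q.1 + dec q.2.1 + (dec q.2.2.1 + dec q.2.2.2.1)) +
              -(fun k => -(Qv k : ZMod 3))) := by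
          conv_lhs => rw [← i3_dec (lt ha'), ← i3_dec (lt hb'), ← i3_dec (lt hc'),
            ← i3_dec (lt hd'), addc_eq, addc_eq, addc_eq, negc_eq, negc_eq, addc_eq]
        rw [e1] at h5
        refine absurd ?_ (hfq _ (i3_lt _) h5)
        rw [dec_i3, ← hev]
        abel
    · exact sb_spec hx Qs ss hrest (fun q' hq' => hf q' (by simp [hq'])) p hpm Qv hQ

/-- the facts for a stage -/
theorem facts_of_norm {x : V → (Fin 5 → ZMod 9)} {v7 a7 : ℕ} {Q : List (ℕ × ℕ × ℕ × ℕ × ℕ)}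
    {sb : List (ℕ × ℕ)} (hx : Norm x (pts.take 5) v7 a7) (h7 : pts.getD 5 0 = v7)
    (hf : Forb x Q) (hsb : sbOK pts Q sb = true) :
    Facts (ptf pts) (fun i => dg x (ptf pts i)) (dec a7) sb := by
  refine facts_of_goodLift hx.good (fun i hi => pt_mem hp hi)
    (fun i hi j hj h => pt_inj hp hi hj h) (fun i _ => rfl) ?_ ?_
    (sb_spec hp hx.good Q sb hsb hf)
  · intro i hi
    apply hx.base
    have hi' : i < pts.length := by rw [hp.1]; omega
    rw [List.getD_eq_getElem _ _ hi']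
    rw [List.mem_take_iff_getElem]
    exact ⟨i, by omega, rfl⟩
  · show dg x (dec (pts.getD 5 0)) = _
    rw [h7]
    exact hx.seven

end

/-! ### the form used by the engine -/

lemma i3_eq94 (g : V) : Pool.Agent.H94.Lift.i3 g = i3 g := rfl

lemma ix_eq94 (g : V) : Pool.Agent.H94.Lift.ix g = ix5 g := rfl

lemma two_eq94 (g : V) : Pool.Agent.H94.Lift.two g = opp g := rfl

lemma lay_eq94 (G : ℕ → V) (ws : List ℕ) : ∀ (rs : List ℕ) (t : V),
    lay (fun (t : V) i => t + G i) (fun t i => t + opp (G i)) rs ws t =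
      Pool.Agent.H94.Lift.lay (rs.map G) (ws.map G) t
  | [], _ => rfl
  | r :: rs, t => by
    rw [lay, List.map_cons, Pool.Agent.H94.Lift.lay, lay_eq94 G ws rs, lay_eq94 G ws rs,
      lay_eq94 G ws rs, two_eq94, ← List.map_append, List.map_map, List.map_map]
    rfl

/-- the root theorem in the form used by the engine -/
theorem root_94 {pt F : ℕ → V} {a7 : V} {sb : List (ℕ × ℕ)} (h : Facts pt F a7 sb) {X : ℕ}
    (hX : X = pr 64 (xv pt (kn a7)) 18)
    {LU LN : List ℕ} {RU RN : List (List ℕ)} (hT : rootOK X sb LU LN RU RN = true) :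
    List.Forall₂ (fun (l : ℕ) (t : V) => l.testBit (Pool.Agent.H94.Lift.i3 t) = true) LU
      [F 6, F 7, F 8, F 9, F 10, F 11, F 12, F 13, F 14, F 15, F 16, F 17] ∧
    List.Forall₂ (fun (l : ℕ) (t : V) => l.testBit (Pool.Agent.H94.Lift.i3 t) = true) LN
      (Pool.Agent.H94.Lift.lay [F 6, F 7, F 8, F 9, F 10] [F 11, F 12, F 13, F 14, F 15, F 16, F 17]
        0) := by
  subst hX
  obtain ⟨h1, h2⟩ := root_spec h hT
  refine ⟨h1, ?_⟩
  rw [lay_eq94 (fun i => F (6 + i))] at h2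
  exact h2

/-- extension of a state, all slots -/
def ext94 (A s p : ℕ) : ℕ := ifn (Nat.ble s 11) (sxt A s p) A

/-- the fallback interface -/
theorem fb_ext {pt F : ℕ → V} {A s : ℕ} (hA : Ok pt F A) :
    Ok pt F (ext94 A s (Pool.Agent.H94.Lift.ix (F (s + 6)))) := by
  unfold ext94
  cases hs : Nat.ble s 11 with
  | false => exact hA
  | true =>
    have hs' : s < 12 := Nat.lt_succ_of_le (Nat.le_of_ble_eq_true hs)
    rw [ifn_true, ix_eq94, add_comm s 6]
    exact sxt_ok hs' hA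

/-- the instance of the fallback interface -/
def fb94 {pt F : ℕ → V} {a7 : V} {sb : List (ℕ × ℕ)} (h : Facts pt F a7 sb) :
    Pool.Agent.H94.Lift.FB (fun s => F (s + 6)) ext94 (vio sb) where
  Ok := Ok pt F
  ext_ok := fun _ _ hA => fb_ext hA
  vio_ok := fun _ _ hA hv => vio_ok h hA hv

end Pool.Agent.H74.EGZ
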